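import Pool.Agent.N20.EN.Stm
import Pool.Agent.Y63.NV.Wblk930
import Pool.Agent.Y63.NV.Cutw
import Pool.Agent.Y930.NV.Cen
import Pool.Agent.Y286.NV.Fin
import Pool.Agent.N27.EWEXT

/-!
# Project EN (helper20), part SEPW (helper527): the block covered by the induced block
-/

set_option autoImplicit false

open scoped Classical BigOperators

noncomputable section

namespace Pool.Agent.N527.EN

open Pool.Agent.Y63.NV
open Pool.Agent.Y63.KR
open Pool.Agent.Y63.AWC (IsIrreducibleCharacter pSubgroupSetoid)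
open Pool.Agent.N20.EN

section

variable {K : Type} [Group K]

lemma mem_norm_iff (M Q : Subgroup K) (hQM : Q ≤ M) (x : K) (hx : x ∈ M) :
    (⟨x, hx⟩ : ↥M) ∈ Subgroup.normalizer ((Q.subgroupOf M : Subgroup ↥M) : Set ↥M) ↔
      x ∈ Subgroup.normalizer (Q : Set K) := by
  rw [Subgroup.mem_normalizer_iff, Subgroup.mem_normalizer_iff]
  constructor
  · intro h y
    constructor
    · intro hy
      exact Subgroup.mem_subgroupOf.1 ((h ⟨y, hQM hy⟩).1 (Subgroup.mem_subgroupOf.2 hy))
    · intro hy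
      have hyM : y ∈ M := by
        have h1 := M.mul_mem (M.mul_mem (M.inv_mem hx) (hQM hy)) hx
        have h2 : x⁻¹ * (x * y * x⁻¹) * x = y := by group
        rwa [h2] at h1
      exact Subgroup.mem_subgroupOf.1 ((h ⟨y, hyM⟩).2 (Subgroup.mem_subgroupOf.2 hy))
  · intro h y
    constructor
    · intro hy
      exact Subgroup.mem_subgroupOf.2 ((h y.1).1 (Subgroup.mem_subgroupOf.1 hy))
    · intro hy
      exact Subgroup.mem_subgroupOf.2 ((h y.1).2 (Subgroup.mem_subgroupOf.1 hy))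

/-- the normaliser in `M` as a subgroup of `M` -/
def nrE (M Q : Subgroup K) (hQM : Q ≤ M) : ↥(M ⊓ Subgroup.normalizer (Q : Set K)) ≃*
    ↥(Subgroup.normalizer ((Q.subgroupOf M : Subgroup ↥M) : Set ↥M)) where
  toFun x := ⟨⟨x.1, x.2.1⟩, (mem_norm_iff M Q hQM x.1 x.2.1).2 x.2.2⟩
  invFun y := ⟨y.1.1, ⟨y.1.2, (mem_norm_iff M Q hQM y.1.1 y.1.2).1 y.2⟩⟩
  left_inv _ := rfl
  right_inv _ := rfl
  map_mul' _ _ := rfl

end

theorem SEPW : S_SEPW := by
  intro p _ F _ _ _ red K _ _ G M _ _ hGM B hB z hz hz1 hsep Q hQ hQM θ hθ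
  -- the weight character of the normaliser in `M`
  have hwt : IsWt p ((Q.subgroupOf M).subgroupOf
      (Subgroup.normalizer ((Q.subgroupOf M : Subgroup ↥M) : Set ↥M)))
      (fun y => θ ((nrE M Q hQM).symm y)) :=
    Pool.Agent.Y286.NV.isWt_comp (nrE M Q hQM).symm (fun _ => Iff.rfl) hθ
  have hQ1 : IsPGroup p (Q.subgroupOf M) :=
    hQ.comap_of_injective M.subtype M.subtype_injective
  have hb := Pool.Agent.Y63.NV.B930.wblk Pool.Agent.Y930.NV.cvh
    (cutw Pool.Agent.Y930.NV.inf) p F red ↥M (Q.subgroupOf M) (fun y => θ ((nrE M Q hQM).symm y)) hQ1 hwt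
  have hnorm : (Subgroup.inclusion hGM).range.Normal := by
    rw [Subgroup.inclusion_range]
    infer_instance
  obtain ⟨B', hB', hval⟩ := Pool.Agent.N27.EW.EXT F ↥G ↥M (Subgroup.inclusion hGM)
    (Subgroup.inclusion_injective hGM) hnorm _ hb
  -- the values of the block `B'`
  have hkey : ∀ w : K → F, InZM M G w →
      B' (fun x : G => w x) = centralValue red θ (fun x => w x) := by
    intro w hw
    have h1 := hval (fun x : ↥M => w x) (fun g x => hw.1 g.1 g.2 x.1) (by
      intro x hx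
      refine hw.2 x.1 fun hxG => hx ?_
      exact ⟨⟨x.1, hxG⟩, rfl⟩)
    have h2 := Pool.Agent.Y286.NV.centralValue_comp red (nrE M Q hQM)
      (fun y => θ ((nrE M Q hQM).symm y)) (Pool.Agent.Y286.NV.irr_class hwt.irr)
      (fun y => w ((y : ↥M) : K)) (fun g x => hw.1 g.1.1 g.1.2 x.1.1)
    exact h1.trans h2.symm
  have hzM : InZM M G z := ⟨fun g _ x => hz.conj g x, hz.supp⟩
  constructor
  · intro h w hw
    have h3 : B' (fun x : G => z x) = 1 := (hkey z hzM).trans h
    have h4 := hsep B' hB' h3 (fun x : G => w x) (fun g x => hw.1 g.1 (hGM g.2) x.1)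
    exact (hkey w hw).symm.trans h4
  · intro h
    exact (h z hzM).trans hz1

end Pool.Agent.N527.EN
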