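import Pool.Agent.N988.EP.Stm
import Pool.Agent.N988.EC.BO

/-!
# Project EP (helper988): the mean of the first-passage time to the ends (helper527)
-/

set_option autoImplicit false

open MeasureTheory Set Filter
open scoped Topology ENNReal

namespace Pool.Agent.N527.EP

open Pool.Agent.N988.EA Pool.Agent.N988.EC Pool.Agent.N988.EP

/-- the law of the weights -/
noncomputable abbrev mu (p : ℝ) (b n : ℕ) : Measure (Edge b n → Bool) := iid (coin (1 - p)) b n

theorem cprob {p : ℝ} (h0 : 0 < p) (h1 : p < 1) : IsProbabilityMeasure (coin (1 - p)) :=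
  coin_prob (by linarith) (by linarith)

theorem meas_of {b n : ℕ} {β : Type} [MeasurableSpace β] (g : (Edge b n → Bool) → β) :
    Measurable g := Measurable.of_discrete

theorem integ {p : ℝ} (h0 : 0 < p) (h1 : p < 1) {b n : ℕ} (g : (Edge b n → Bool) → ℝ) :
    Integrable g (mu p b n) := by
  haveI := cprob h0 h1
  exact Integrable.of_finite

/-- the law of the family of the halves -/
theorem law_cur (hC : S_CUR) {p : ℝ} (h0 : 0 < p) (h1 : p < 1) (b n : ℕ) :
    (mu p b (n + 1)).map (fun w (c : Fin b × Bool) => sub w c.1 c.2) =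
      Measure.pi fun _ : Fin b × Bool => mu p b n := by
  haveI := cprob h0 h1
  exact hC b n Bool (coin (1 - p))

theorem meas_cur (b n : ℕ) :
    Measurable (fun (w : Edge b (n + 1) → Bool) (c : Fin b × Bool) => sub w c.1 c.2) :=
  Measurable.of_discrete

theorem law_sub (hC : S_CUR) {p : ℝ} (h0 : 0 < p) (h1 : p < 1) (b n : ℕ) (i : Fin b) (s : Bool) :
    (mu p b (n + 1)).map (fun w => sub w i s) = mu p b n := by
  haveI := cprob h0 h1
  have h2 : (fun w : Edge b (n + 1) → Bool => sub w i s) =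
      (Function.eval ((i, s) : Fin b × Bool)) ∘
        (fun (w : Edge b (n + 1) → Bool) (c : Fin b × Bool) => sub w c.1 c.2) := rfl
  rw [h2, ← Measure.map_map (measurable_pi_apply _) (meas_cur b n), law_cur hC h0 h1]
  exact (measurePreserving_eval (fun _ : Fin b × Bool => mu p b n) (i, s)).map_eq

theorem int_sub (hC : S_CUR) {p : ℝ} (h0 : 0 < p) (h1 : p < 1) (b n : ℕ) (i : Fin b) (s : Bool)
    (g : (Edge b n → Bool) → ℝ) :
    ∫ w, g (sub w i s) ∂(mu p b (n + 1)) = ∫ v, g v ∂(mu p b n) := by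
  rw [← law_sub hC h0 h1 b n i s, integral_map]
  · exact (Measurable.of_discrete).aemeasurable
  · exact (meas_of g).aestronglyMeasurable

/-- probability of a box -/
theorem box (hC : S_CUR) {p : ℝ} (h0 : 0 < p) (h1 : p < 1) (b n : ℕ)
    (B : Fin b × Bool → Set (Edge b n → Bool)) :
    (mu p b (n + 1)).real {w | ∀ c, sub w c.1 c.2 ∈ B c} = ∏ c, (mu p b n).real (B c) := by
  haveI := cprob h0 h1
  have h2 : {w : Edge b (n + 1) → Bool | ∀ c, sub w c.1 c.2 ∈ B c} =
      (fun (w : Edge b (n + 1) → Bool) (c : Fin b × Bool) => sub w c.1 c.2) ⁻¹'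
        (Set.pi univ B) := by
    ext w
    simp
  unfold Measure.real
  rw [h2, ← Measure.map_apply (meas_cur b n) (MeasurableSet.pi countable_univ
    fun c _ => MeasurableSet.of_discrete), law_cur hC h0 h1, Measure.pi_pi, ENNReal.toReal_prod]

/-- the probability of weight zero is `p` at all levels -/
theorem zero_law (h4 : S_LAW) {b : ℕ} (hb : 1 ≤ b) {p : ℝ} (h0 : 0 < p) (h1 : p < 1)
    (hp : 1 - (1 - p ^ 2) ^ b = p) (n : ℕ) : (mu p b n).real {w | Y n w = 0} = p := by
  obtain ⟨a1, a2⟩ := h4 b hb p h0.le h1.le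
  induction n with
  | zero => exact a1
  | succ n ih =>
    have h := (a2 n).1
    have ih' : (iid (coin (1 - p)) b n).real {w | Y n w = 0} = p := ih
    rw [ih', hp] at h
    exact h

theorem pos_law (h4 : S_LAW) {b : ℕ} (hb : 1 ≤ b) {p : ℝ} (h0 : 0 < p) (h1 : p < 1)
    (hp : 1 - (1 - p ^ 2) ^ b = p) (n : ℕ) : (mu p b n).real {w | 1 ≤ Y n w} = 1 - p := by
  haveI := cprob h0 h1
  have h2 : {w : Edge b n → Bool | 1 ≤ Y n w} = {w | Y n w = 0}ᶜ := by
    ext w
    simp only [mem_setOf_eq, mem_compl_iff]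
    omega
  rw [h2, probReal_compl_eq_one_sub MeasurableSet.of_discrete, zero_law h4 hb h0 h1 hp]

/-- the upper bound -/
theorem upper (hC : S_CUR) (h2 : S_UP) {b : ℕ} (hb : 1 ≤ b) {p C : ℝ} (h0 : 0 < p) (h1 : p < 1)
    (hY : ∀ n : ℕ, ∫ w, (Y n w : ℝ) ∂(mu p b n) ≤ C) :
    ∀ (n : ℕ) (e : Edge b n), ∫ w, (far w e : ℝ) ∂(mu p b n) ≤ C * n := by
  obtain ⟨-, a2, a3⟩ := h2 b hb
  intro n
  induction n with
  | zero =>
    intro e
    have h3 : ∀ w : Edge b 0 → Bool, ((far w e : ℕ) : ℝ) = 0 := fun w => by rw [a2 w e]; simp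
    simp only [h3, integral_zero]
    simp
  | succ n ih =>
    rintro ⟨i, s, e⟩
    have h3 : ∫ w, (far w ((i, s, e) : Edge b (n + 1)) : ℝ) ∂(mu p b (n + 1)) ≤
        ∫ w, ((far (sub w i s) e : ℝ) + (Y n (sub w i (!s)) : ℝ)) ∂(mu p b (n + 1)) := by
      refine integral_mono (integ h0 h1 _) (integ h0 h1 _) fun w => ?_
      have h' := (Nat.cast_le (α := ℝ)).2 (a3 n w i s e)
      rw [Nat.cast_add] at h'
      exact h'
    rw [integral_add (integ h0 h1 _) (integ h0 h1 _),
      int_sub hC h0 h1 b n i s (fun v => (far v e : ℝ)),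
      int_sub hC h0 h1 b n i (!s) (fun v => (Y n v : ℝ))] at h3
    have h4 := ih e
    have h5 := hY n
    push_cast
    linarith

/-- the good event of the large cell: all small cells but one have a positive passage time -/
theorem cell_prob (hC : S_CUR) (h4 : S_LAW) {b : ℕ} (hb : 1 ≤ b) {p : ℝ} (h0 : 0 < p) (h1 : p < 1)
    (hp : 1 - (1 - p ^ 2) ^ b = p) (n : ℕ) (c₀ : Fin b × Bool) :
    (1 - p) ^ (2 * b) ≤
      (mu p b (n + 1)).real {w | ∀ c : Fin b × Bool, c ≠ c₀ → 1 ≤ Y n (sub w c.1 c.2)} := by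
  classical
  haveI := cprob h0 h1
  have h2 : {w : Edge b (n + 1) → Bool | ∀ c : Fin b × Bool, c ≠ c₀ → 1 ≤ Y n (sub w c.1 c.2)} =
      {w | ∀ c, sub w c.1 c.2 ∈ (if c = c₀ then univ else {v | 1 ≤ Y n v} :
        Set (Edge b n → Bool))} := by
    ext w
    simp only [mem_setOf_eq]
    refine forall_congr' fun c => ?_
    by_cases hc : c = c₀
    · simp [hc]
    · simp [hc]
  rw [h2, box hC h0 h1]
  have h3 : ∀ c : Fin b × Bool, 1 - p ≤
      (mu p b n).real (if c = c₀ then univ else {v | 1 ≤ Y n v} : Set (Edge b n → Bool)) := by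
    intro c
    split_ifs
    · rw [probReal_univ]
      linarith
    · rw [pos_law h4 hb h0 h1 hp]
  calc (1 - p) ^ (2 * b) = ∏ _c : Fin b × Bool, (1 - p) := by
        rw [Finset.prod_const, Finset.card_univ, Fintype.card_prod, Fintype.card_fin,
          Fintype.card_bool, mul_comm]
    _ ≤ _ := Finset.prod_le_prod (fun _ _ => by linarith) fun c _ => h3 c

theorem event_prob (hC : S_CUR) (h4 : S_LAW) {b : ℕ} (hb : 1 ≤ b) {p : ℝ} (h0 : 0 < p)
    (h1 : p < 1) (hp : 1 - (1 - p ^ 2) ^ b = p) (n : ℕ) (i : Fin b) (s : Bool)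
    (c₀ : Fin b × Bool) :
    (1 - p) ^ (2 * b + 1) ≤ (mu p b (n + 2)).real
      {w | (∀ c : Fin b × Bool, c ≠ c₀ → 1 ≤ Y n (sub (sub w i s) c.1 c.2)) ∧
        1 ≤ Y (n + 1) (sub w i (!s))} := by
  classical
  haveI := cprob h0 h1
  set E1 : Set (Edge b (n + 1) → Bool) :=
    {w | ∀ c : Fin b × Bool, c ≠ c₀ → 1 ≤ Y n (sub w c.1 c.2)} with hE1
  set E2 : Set (Edge b (n + 1) → Bool) := {w | 1 ≤ Y (n + 1) w} with hE2
  have hne : ((i, !s) : Fin b × Bool) ≠ (i, s) := by
    intro h
    have := (Prod.ext_iff.1 h).2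
    cases s <;> simp at this
  have h2 : {w : Edge b (n + 2) → Bool |
        (∀ c : Fin b × Bool, c ≠ c₀ → 1 ≤ Y n (sub (sub w i s) c.1 c.2)) ∧
        1 ≤ Y (n + 1) (sub w i (!s))} =
      {w | ∀ c, sub w c.1 c.2 ∈ (if c = (i, s) then E1 else if c = (i, !s) then E2 else univ :
        Set (Edge b (n + 1) → Bool))} := by
    ext w
    simp only [mem_setOf_eq]
    constructor
    · rintro ⟨a1, a2⟩ c
      split_ifs with hc1 hc2
      · rw [hc1]; exact a1
      · rw [hc2]; exact a2
      · exact mem_univ _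
    · intro h
      have a1 := h (i, s)
      have a2 := h (i, !s)
      rw [if_pos rfl] at a1
      rw [if_neg hne, if_pos rfl] at a2
      exact ⟨a1, a2⟩
  rw [h2, box hC h0 h1 b (n + 1)]
  have h5 : ∏ c : Fin b × Bool, (mu p b (n + 1)).real
      (if c = (i, s) then E1 else if c = (i, !s) then E2 else univ :
        Set (Edge b (n + 1) → Bool)) = (mu p b (n + 1)).real E1 * (mu p b (n + 1)).real E2 := by
    rw [← Finset.mul_prod_erase _ _ (Finset.mem_univ ((i, s) : Fin b × Bool)), if_pos rfl,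
      ← Finset.mul_prod_erase _ _ (Finset.mem_erase.2 ⟨hne, Finset.mem_univ _⟩), if_neg hne,
      if_pos rfl, Finset.prod_eq_one, mul_one]
    intro c hc
    rw [Finset.mem_erase, Finset.mem_erase] at hc
    rw [if_neg hc.2.1, if_neg hc.1, probReal_univ]
  rw [h5, pow_succ]
  have h6 := cell_prob hC h4 hb h0 h1 hp n c₀
  have h7 := pos_law h4 hb h0 h1 hp (n + 1)
  have h8 : 0 ≤ 1 - p := by linarith
  calc (1 - p) ^ (2 * b) * (1 - p) ≤ (mu p b (n + 1)).real E1 * (1 - p) :=
        mul_le_mul_of_nonneg_right h6 h8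
    _ = (mu p b (n + 1)).real E1 * (mu p b (n + 1)).real E2 := by rw [hE2, h7]

/-- the lower bound for one edge -/
theorem edge_lower (hC : S_CUR) (h3 : S_LOW) (h4 : S_LAW) {b : ℕ} (hb : 1 ≤ b) {p : ℝ}
    (h0 : 0 < p) (h1 : p < 1) (hp : 1 - (1 - p ^ 2) ^ b = p) (n : ℕ) (i j : Fin b) (s s' : Bool)
    (e : Edge b n) :
    ∫ w, (far w e : ℝ) ∂(mu p b n) + (if s' = !s then (1 - p) ^ (2 * b + 1) else 0) ≤
      ∫ w, (far w ((i, s, (j, s', e)) : Edge b (n + 2)) : ℝ) ∂(mu p b (n + 2)) := by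
  classical
  haveI := cprob h0 h1
  obtain ⟨-, a2, a3⟩ := h3 b hb
  have e1 : ∫ w, (far w e : ℝ) ∂(mu p b n) =
      ∫ w, (far (sub (sub w i s) j s') e : ℝ) ∂(mu p b (n + 2)) := by
    rw [int_sub hC h0 h1 b (n + 1) i s (fun v => (far (sub v j s') e : ℝ)),
      int_sub hC h0 h1 b n j s' (fun v => (far v e : ℝ))]
  have e2 : ∀ w : Edge b (n + 2) → Bool, far (sub (sub w i s) j s') e ≤
      far w ((i, s, (j, s', e)) : Edge b (n + 2)) := fun w =>
    (a2 n (sub w i s) j s' e).trans (a2 (n + 1) w i s ((j, s', e) : Edge b (n + 1)))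
  by_cases hs : s' = !s
  · rw [if_pos hs]
    subst hs
    set Ev : Set (Edge b (n + 2) → Bool) :=
      {w | (∀ c : Fin b × Bool, c ≠ (j, !s) → 1 ≤ Y n (sub (sub w i s) c.1 c.2)) ∧
        1 ≤ Y (n + 1) (sub w i (!s))} with hEv
    have h5 := event_prob hC h4 hb h0 h1 hp n i s (j, !s)
    rw [← hEv] at h5
    have h6 : (mu p b (n + 2)).real Ev =
        ∫ w, Ev.indicator (fun _ => (1 : ℝ)) w ∂(mu p b (n + 2)) := by
      rw [integral_indicator MeasurableSet.of_discrete]
      simp
    calc _ ≤ ∫ w, (far (sub (sub w i s) j (!s)) e : ℝ) ∂(mu p b (n + 2)) +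
          ∫ w, Ev.indicator (fun _ => (1 : ℝ)) w ∂(mu p b (n + 2)) := by
          rw [e1, ← h6]
          linarith
      _ = ∫ w, ((far (sub (sub w i s) j (!s)) e : ℝ) + Ev.indicator (fun _ => (1 : ℝ)) w)
          ∂(mu p b (n + 2)) := (integral_add (integ h0 h1 _) (integ h0 h1 _)).symm
      _ ≤ _ := by
          refine integral_mono (integ h0 h1 _) (integ h0 h1 _) fun w => ?_
          by_cases hw : w ∈ Ev
          · simp only [Set.indicator_of_mem hw]
            have h7 := a3 n w i j s e (hw.1 (j, s) (by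
                intro h
                have := (Prod.ext_iff.1 h).2
                cases s <;> simp at this))
              (fun j' hj' => (hw.1 (j', false) (fun h => hj' (Prod.ext_iff.1 h).1)).trans
                (Nat.le_add_right _ _)) hw.2
            exact_mod_cast h7
          · simp only [Set.indicator_of_notMem hw, add_zero]
            exact_mod_cast e2 w
  · rw [if_neg hs, add_zero, e1]
    refine integral_mono (integ h0 h1 _) (integ h0 h1 _) fun w => ?_
    exact (Nat.cast_le (α := ℝ)).2 (e2 w)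

theorem card_succ (b n : ℕ) :
    Fintype.card (Edge b (n + 1)) = b * (2 * Fintype.card (Edge b n)) := by
  have h : Fintype.card (Edge b (n + 1)) = Fintype.card (Fin b × Bool × Edge b n) := rfl
  rw [h, Fintype.card_prod, Fintype.card_prod, Fintype.card_fin, Fintype.card_bool]

theorem sum_succ (b n : ℕ) (g : Edge b (n + 1) → ℝ) :
    ∑ e, g e = ∑ i : Fin b, ∑ s : Bool, ∑ e : Edge b n, g ((i, s, e) : Edge b (n + 1)) := by
  have h : ∑ e, g e = ∑ e : Fin b × Bool × Edge b n, g e := rfl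
  rw [h, Fintype.sum_prod_type]
  refine Finset.sum_congr rfl fun i _ => ?_
  rw [Fintype.sum_prod_type]

theorem card_pos {b : ℕ} (hb : 1 ≤ b) (n : ℕ) : 0 < Fintype.card (Edge b n) := by
  induction n with
  | zero => exact Fintype.card_pos_iff.2 ⟨()⟩
  | succ n ih =>
    rw [card_succ]
    positivity

/-- **The mean of the first-passage time to the ends.** -/
theorem t_MU (h1 : S_CUR) (h2 : S_UP) (h3 : S_LOW) (h4 : S_LAW) : S_MU := by
  intro b hb p C hp0 hp1 hp hY
  have hb1 : 1 ≤ b := by omega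
  refine ⟨upper h1 h2 hb1 hp0 hp1 hY, (1 - p) ^ (2 * b + 1) / 2,
    by have : 0 < 1 - p := by linarith
       positivity, fun n => ?_⟩
  have hq : 0 ≤ (1 - p) ^ (2 * b + 1) := by
    have : 0 ≤ 1 - p := by linarith
    positivity
  set q : ℝ := (1 - p) ^ (2 * b + 1) with hqd
  set S : ℝ := ∑ e : Edge b n, ∫ w, (far w e : ℝ) ∂(iid (coin (1 - p)) b n) with hS
  set N : ℝ := (Fintype.card (Edge b n) : ℝ) with hN
  have hNpos : 0 < N := by
    rw [hN]
    exact_mod_cast card_pos hb1 n
  have hc2 : (Fintype.card (Edge b (n + 2)) : ℝ) = 4 * (b : ℝ) ^ 2 * N := by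
    rw [card_succ, card_succ, hN]
    push_cast
    ring
  rw [hc2, sum_succ]
  have h5 : ∀ i : Fin b, ∀ s : Bool, 2 * b * S + b * N * q ≤
      ∑ e : Edge b (n + 1), ∫ w, (far w ((i, s, e) : Edge b (n + 2)) : ℝ)
        ∂(iid (coin (1 - p)) b (n + 2)) := by
    intro i s
    rw [sum_succ]
    have h6 : ∀ j : Fin b, 2 * S + N * q ≤ ∑ s' : Bool, ∑ e : Edge b n,
        ∫ w, (far w ((i, s, ((j, s', e) : Edge b (n + 1))) : Edge b (n + 2)) : ℝ)
          ∂(iid (coin (1 - p)) b (n + 2)) := by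
      intro j
      have h7 : ∀ s' : Bool, S + N * (if s' = !s then q else 0) ≤ ∑ e : Edge b n,
        ∫ w, (far w ((i, s, ((j, s', e) : Edge b (n + 1))) : Edge b (n + 2)) : ℝ)
          ∂(iid (coin (1 - p)) b (n + 2)) := by
        intro s'
        calc S + N * (if s' = !s then q else 0) = ∑ e : Edge b n,
              (∫ w, (far w e : ℝ) ∂(iid (coin (1 - p)) b n) + (if s' = !s then q else 0)) := by
              rw [Finset.sum_add_distrib, Finset.sum_const, Finset.card_univ, nsmul_eq_mul]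
          _ ≤ _ := Finset.sum_le_sum fun e _ =>
              edge_lower h1 h3 h4 hb1 hp0 hp1 hp n i j s s' e
      rw [Fintype.sum_bool]
      have a1 := h7 true
      have a2 := h7 false
      cases s
      · simp only [Bool.not_false, if_true, Bool.false_eq_true, if_false, mul_zero,
          add_zero] at a1 a2
        linarith
      · simp only [Bool.not_true, if_true, Bool.true_eq_false, if_false, mul_zero,
          add_zero] at a1 a2
        linarith
    calc 2 * b * S + b * N * q = ∑ _j : Fin b, (2 * S + N * q) := by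
          rw [Finset.sum_const, Finset.card_univ, Fintype.card_fin, nsmul_eq_mul]
          ring
      _ ≤ _ := Finset.sum_le_sum fun j _ => h6 j
  calc 4 * (b : ℝ) ^ 2 * N / N * S + q / 2 * (4 * (b : ℝ) ^ 2 * N) =
        ∑ _i : Fin b, ∑ _s : Bool, (2 * b * S + b * N * q) := by
        simp only [Finset.sum_const, Finset.card_univ, Fintype.card_fin, Fintype.card_bool,
          nsmul_eq_mul]
        field_simp
        push_cast
        ring
    _ ≤ _ := Finset.sum_le_sum fun i _ => Finset.sum_le_sum fun s _ => h5 i s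

end Pool.Agent.N527.EP
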